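import Mathlib
import Pool.Agent.R371.BF.Poly
import Pool.Agent.R371.BF.Roots

/-!
# The lower bound `n 2^(s/n - 1)` for the absolute square size is sharp for `s = 4`

The algebraic integers used are the roots of `X^(M+2) - X^M + 4 X^6 - 3 X^2 + 1`, where `M` is a
large power of two (of the form `2^(3b+1)`).
-/

set_option autoImplicit false

open Polynomial

namespace Pool.Agent.Results.MP_bf7c2b_nt.SharpForFour

/-- the conjugates of `α`: the complex roots of its minimal polynomial over `ℚ` -/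
noncomputable def conjugates (α : ℂ) : Finset ℂ := ((minpoly ℚ α).aroots ℂ).toFinset

open scoped Classical in
/-- the real conjugates of `α` -/
noncomputable def realConjugates (α : ℂ) : Finset ℂ := (conjugates α).filter (fun z => z.im = 0)

open scoped Classical in
/-- the conjugates of `α` in the open upper half plane, one from each pair of non-real ones -/
noncomputable def upperConjugates (α : ℂ) : Finset ℂ := (conjugates α).filter (fun z => 0 < z.im)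

/-- the absolute square size of `α` -/
noncomputable def squareSize (α : ℂ) : ℝ :=
  ∑ z ∈ realConjugates α, ‖z‖ ^ 2 + ∑ z ∈ upperConjugates α, ‖z‖ ^ 2

open Pool.Agent.R371.BF

theorem exists_alpha (m : ℕ) (hm : 3 ≤ m) :
    ∃ α : ℂ, α ≠ 0 ∧ IsIntegral ℤ α ∧ minpoly ℚ α = (P (2 ^ m)).map (Int.castRingHom ℚ) := by
  have hM : 5 ≤ 2 ^ m := by
    calc 5 ≤ 2 ^ 3 := by norm_num
      _ ≤ 2 ^ m := Nat.pow_le_pow_right (by norm_num) hm
  have hmonic := P_monic hM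
  have hdeg := P_natDegree hM
  have hirr : Irreducible ((P (2 ^ m)).map (Int.castRingHom ℚ)) :=
    (Monic.irreducible_iff_irreducible_map_fraction_map (K := ℚ) hmonic).1 (P_irreducible m hm)
  have hne : ((P (2 ^ m)).map (Int.castRingHom ℚ)).degree ≠ 0 := by
    rw [hmonic.degree_map, degree_eq_natDegree hmonic.ne_zero, hdeg]
    norm_cast
  obtain ⟨α, hα⟩ := IsAlgClosed.exists_aeval_eq_zero ℂ ((P (2 ^ m)).map (Int.castRingHom ℚ)) hne
  have hmin := minpoly.eq_of_irreducible_of_monic hirr hα (hmonic.map _)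
  refine ⟨α, ?_, ⟨P (2 ^ m), hmonic, ?_⟩, hmin.symm⟩
  · rintro rfl
    have : aeval (0 : ℂ) ((P (2 ^ m)).map (Int.castRingHom ℚ)) = 1 := by
      simp [P]
    rw [hα] at this
    exact zero_ne_one this
  · have : aeval α ((P (2 ^ m)).map (Int.castRingHom ℚ)) = eval₂ (algebraMap ℤ ℂ) α (P (2 ^ m)) := by
      rw [aeval_def, eval₂_map]
      congr 1
    rw [← this, hα]

/-- the numerical inequality for `x - 1 - log x` -/
theorem le_log {t : ℝ} (ht : 1 / 2 ≤ t) : t ≤ 1 + Real.log t + 2 * (t - 1) ^ 2 := by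
  have htpos : 0 < t := by linarith
  have h := Real.one_sub_inv_le_log_of_pos htpos
  have h2 : t ≤ 2 - t⁻¹ + 2 * (t - 1) ^ 2 := by
    have h3 : t * t⁻¹ = 1 := mul_inv_cancel₀ htpos.ne'
    have h4 : 0 < t⁻¹ := by positivity
    have h5 : t⁻¹ ≤ 2 := by
      rw [inv_le_comm₀ htpos (by norm_num)]; linarith
    nlinarith [sq_nonneg (t - 1), mul_nonneg (sq_nonneg (t - 1)) (by linarith : 0 ≤ 2 - t⁻¹)]
  linarith

/-! ### The conjugates of a root of `P (2 K)` -/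

section
variable {α : ℂ} {m K : ℕ}

theorem mem_conjugates (hα : minpoly ℚ α = (P (2 ^ m)).map (Int.castRingHom ℚ))
    (hm : 3 ≤ m) (hK : 2 ^ m = 2 * K) (z : ℂ) : z ∈ conjugates α ↔ Q K (z ^ 2) = 0 := by
  have hM : 5 ≤ 2 ^ m := by
    calc 5 ≤ 2 ^ 3 := by norm_num
      _ ≤ 2 ^ m := Nat.pow_le_pow_right (by norm_num) hm
  have hmonic := (P_monic hM).map (Int.castRingHom ℚ)
  unfold conjugates
  rw [Multiset.mem_toFinset, hα, mem_aroots, and_iff_right hmonic.ne_zero]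
  have h1 : aeval z ((P (2 ^ m)).map (Int.castRingHom ℚ)) = Q K (z ^ 2) := by
    rw [hK]
    simp only [P, Q, Polynomial.map_sub, Polynomial.map_add, Polynomial.map_mul,
      Polynomial.map_pow, map_X, Polynomial.map_one, map_sub, map_add, map_mul, map_pow, aeval_X,
      map_one, Polynomial.map_ofNat, ← pow_mul, pow_add]
    have a3 : (aeval z) (3 : ℚ[X]) = 3 := map_ofNat _ 3
    have a4 : (aeval z) (4 : ℚ[X]) = 4 := map_ofNat _ 4
    rw [a3, a4]
    ring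
  rw [h1]

theorem card_conjugates (hα : minpoly ℚ α = (P (2 ^ m)).map (Int.castRingHom ℚ))
    (hm : 3 ≤ m) (hint : IsIntegral ℤ α) : (conjugates α).card = 2 ^ m + 2 := by
  have hM : 5 ≤ 2 ^ m := by
    calc 5 ≤ 2 ^ 3 := by norm_num
      _ ≤ 2 ^ m := Nat.pow_le_pow_right (by norm_num) hm
  have hirr := minpoly.irreducible (A := ℚ) (hint.tower_top)
  unfold conjugates
  rw [Multiset.toFinset_card_of_nodup (nodup_roots hirr.separable.map),
    IsAlgClosed.card_aroots_eq_natDegree, hα, (P_monic hM).natDegree_map, P_natDegree hM]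

theorem prod_conjugates (hα : minpoly ℚ α = (P (2 ^ m)).map (Int.castRingHom ℚ))
    (hm : 3 ≤ m) (hint : IsIntegral ℤ α) : ∏ z ∈ conjugates α, ‖z‖ = 1 := by
  have hM : 5 ≤ 2 ^ m := by
    calc 5 ≤ 2 ^ 3 := by norm_num
      _ ≤ 2 ^ m := Nat.pow_le_pow_right (by norm_num) hm
  have hirr := minpoly.irreducible (A := ℚ) (hint.tower_top)
  have hnodup := nodup_roots (hirr.separable.map (f := algebraMap ℚ ℂ))
  have hmonic : ((minpoly ℚ α).map (algebraMap ℚ ℂ)).Monic :=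
    (minpoly.monic (hint.tower_top)).map _
  have h1 := (IsAlgClosed.splits ((minpoly ℚ α).map (algebraMap ℚ ℂ))).coeff_zero_eq_prod_roots_of_monic
    hmonic
  have h2 : ((minpoly ℚ α).map (algebraMap ℚ ℂ)).coeff 0 = 1 := by
    rw [hα, coeff_map, coeff_map, coeff_zero_eq_eval_zero]
    simp [P]
  rw [h2] at h1
  have h3 := congrArg norm h1
  rw [norm_one, norm_mul, norm_pow, norm_neg, norm_one, one_pow, one_mul] at h3
  unfold conjugates
  have h4 : ∏ z ∈ ((minpoly ℚ α).aroots ℂ).toFinset, ‖z‖ =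
      (((minpoly ℚ α).aroots ℂ).map (fun z => ‖z‖)).prod := by
    rw [Finset.prod_multiset_map_count]
    apply Finset.prod_congr rfl
    intro z hz
    rw [Multiset.count_eq_one_of_mem hnodup (Multiset.mem_toFinset.1 hz), pow_one]
  rw [h4]
  have h5 := Multiset.prod_hom ((minpoly ℚ α).aroots ℂ) (normHom : ℂ →*₀ ℝ)
  have h6 : (((minpoly ℚ α).aroots ℂ).map (fun z => ‖z‖)).prod = ‖((minpoly ℚ α).aroots ℂ).prod‖ := h5
  rw [h6]
  exact h3.symm

open ComplexConjugate in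
theorem conj_mem (hα : minpoly ℚ α = (P (2 ^ m)).map (Int.castRingHom ℚ))
    (hm : 3 ≤ m) (hK : 2 ^ m = 2 * K) {z : ℂ} (hz : z ∈ conjugates α) :
    conj z ∈ conjugates α := by
  rw [mem_conjugates hα hm hK] at hz ⊢
  have h := congrArg conj hz
  rw [map_zero] at h
  rw [← h]
  have c2 : conj (2 : ℂ) = 2 := map_ofNat _ 2
  unfold Q
  simp [c2]

/-- the conjugates of `α` in the open lower half plane -/
noncomputable def lowerConjugates (α : ℂ) : Finset ℂ := by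
  classical
  exact (conjugates α).filter (fun z => z.im < 0)

theorem mem_real {z : ℂ} : z ∈ realConjugates α ↔ z ∈ conjugates α ∧ z.im = 0 := by
  unfold realConjugates; rw [Finset.mem_filter]

theorem mem_upper {z : ℂ} : z ∈ upperConjugates α ↔ z ∈ conjugates α ∧ 0 < z.im := by
  unfold upperConjugates; rw [Finset.mem_filter]

theorem mem_lower {z : ℂ} : z ∈ lowerConjugates α ↔ z ∈ conjugates α ∧ z.im < 0 := by
  unfold lowerConjugates; rw [Finset.mem_filter]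

theorem conjugates_eq : conjugates α =
    (realConjugates α ∪ upperConjugates α) ∪ lowerConjugates α := by
  ext z
  rw [Finset.mem_union, Finset.mem_union, mem_real, mem_upper, mem_lower]
  rcases lt_trichotomy z.im 0 with h | h | h
  · simp [h, h.ne, h.le]
  · simp [h]
  · simp [h, h.ne', h.le]

theorem disj1 : Disjoint (realConjugates α) (upperConjugates α) := by
  rw [Finset.disjoint_left]
  intro z h1 h2
  rw [mem_real] at h1
  rw [mem_upper] at h2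
  linarith [h1.2, h2.2]

theorem disj2 : Disjoint (realConjugates α ∪ upperConjugates α) (lowerConjugates α) := by
  rw [Finset.disjoint_left]
  intro z h1 h2
  rw [Finset.mem_union, mem_real, mem_upper] at h1
  rw [mem_lower] at h2
  rcases h1 with h1 | h1
  · linarith [h1.2, h2.2]
  · linarith [h1.2, h2.2]

open ComplexConjugate in
theorem prod_lower (hα : minpoly ℚ α = (P (2 ^ m)).map (Int.castRingHom ℚ))
    (hm : 3 ≤ m) (hK : 2 ^ m = 2 * K) (f : ℝ → ℝ) :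
    ∏ z ∈ lowerConjugates α, f ‖z‖ = ∏ z ∈ upperConjugates α, f ‖z‖ := by
  refine Finset.prod_nbij' (fun z => conj z) (fun z => conj z) ?_ ?_ ?_ ?_ ?_
  · intro z hz
    rw [mem_lower] at hz
    rw [mem_upper]
    exact ⟨conj_mem hα hm hK hz.1, by simpa using hz.2⟩
  · intro z hz
    rw [mem_upper] at hz
    rw [mem_lower]
    exact ⟨conj_mem hα hm hK hz.1, by simpa using hz.2⟩
  · intro z _; simp
  · intro z _; simp
  · intro z _; simp

open ComplexConjugate in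
theorem card_lower (hα : minpoly ℚ α = (P (2 ^ m)).map (Int.castRingHom ℚ))
    (hm : 3 ≤ m) (hK : 2 ^ m = 2 * K) :
    (lowerConjugates α).card = (upperConjugates α).card := by
  refine Finset.card_nbij' (fun z => conj z) (fun z => conj z) ?_ ?_ ?_ ?_
  · intro z hz
    rw [Finset.mem_coe, mem_lower] at hz
    rw [Finset.mem_coe, mem_upper]
    exact ⟨conj_mem hα hm hK hz.1, by simpa using hz.2⟩
  · intro z hz
    rw [Finset.mem_coe, mem_upper] at hz
    rw [Finset.mem_coe, mem_lower]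
    exact ⟨conj_mem hα hm hK hz.1, by simpa using hz.2⟩
  · intro z _; simp
  · intro z _; simp

/-- the two roots of `Q` near `1/2` -/
theorem near_half (hK2 : 2 ≤ K)
    (hsmall : 2 * ((K : ℝ) + 1) ^ 2 * (11 / 20) ^ (K - 2) < 5) {y₁ y₂ : ℝ}
    (h1 : |2 * y₁ - 1| ≤ 1 / 10) (h2 : |2 * y₂ - 1| ≤ 1 / 10) (hne : y₁ ≠ y₂)
    (q1 : q K y₁ = 0) (q2 : q K y₂ = 0) {y : ℂ} (hy : Q K y = 0) (hnear : ‖2 * y - 1‖ ≤ 1 / 10) :
    y = y₁ ∨ y = y₂ := by
  by_contra hcon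
  push Not at hcon
  have n1 : ‖2 * (y₁ : ℂ) - 1‖ ≤ 1 / 10 := by
    have : (2 * (y₁ : ℂ) - 1) = ((2 * y₁ - 1 : ℝ) : ℂ) := by push_cast; ring
    rw [this, Complex.norm_real]; exact h1
  have n2 : ‖2 * (y₂ : ℂ) - 1‖ ≤ 1 / 10 := by
    have : (2 * (y₂ : ℂ) - 1) = ((2 * y₂ - 1 : ℝ) : ℂ) := by push_cast; ring
    rw [this, Complex.norm_real]; exact h2
  have Q1 : Q K (y₁ : ℂ) = 0 := by rw [Q_ofReal, q1]; simp
  have Q2 : Q K (y₂ : ℂ) = 0 := by rw [Q_ofReal, q2]; simp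
  have := no_three hK2 hsmall hnear n1 n2 hy Q1 Q2 hcon.1 (by
    intro h; exact hne (by exact_mod_cast h.symm))
  exact hcon.2 this

theorem real_eq (hα : minpoly ℚ α = (P (2 ^ m)).map (Int.castRingHom ℚ))
    (hm : 3 ≤ m) (hK : 2 ^ m = 2 * K) (hK3 : 100 ≤ K)
    (hsmall : 2 * ((K : ℝ) + 1) ^ 2 * (11 / 20) ^ (K - 2) < 5) {x₁ x₂ : ℝ}
    (hx₁ : 0 < x₁) (hx₂ : 0 < x₂)
    (h1 : |2 * x₁ ^ 2 - 1| ≤ 1 / 10) (h2 : |2 * x₂ ^ 2 - 1| ≤ 1 / 10) (hne : x₁ ≠ x₂)
    (q1 : q K (x₁ ^ 2) = 0) (q2 : q K (x₂ ^ 2) = 0) :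
    realConjugates α = {(x₁ : ℂ), -(x₁ : ℂ), (x₂ : ℂ), -(x₂ : ℂ)} := by
  have hne2 : x₁ ^ 2 ≠ x₂ ^ 2 := by
    intro h
    rw [sq_eq_sq₀ hx₁.le hx₂.le] at h
    exact hne h
  ext z
  rw [mem_real, mem_conjugates hα hm hK]
  simp only [Finset.mem_insert, Finset.mem_singleton]
  constructor
  · rintro ⟨hQ, him⟩
    obtain ⟨x, rfl⟩ : ∃ x : ℝ, z = x := ⟨z.re, by
      apply Complex.ext <;> simp [him]⟩
    have hq : q K (x ^ 2) = 0 := by
      have : Q K (((x ^ 2 : ℝ)) : ℂ) = 0 := by push_cast; exact hQ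
      rw [Q_ofReal] at this
      exact_mod_cast this
    have hnear : |2 * x ^ 2 - 1| ≤ 1 / 10 := by
      by_contra hcon
      push Not at hcon
      have := q_pos hK3 (sq_nonneg x) hcon
      linarith
    have hnear' : ‖2 * ((x ^ 2 : ℝ) : ℂ) - 1‖ ≤ 1 / 10 := by
      have : (2 * ((x ^ 2 : ℝ) : ℂ) - 1) = ((2 * x ^ 2 - 1 : ℝ) : ℂ) := by push_cast; ring
      rw [this, Complex.norm_real]; exact hnear
    have hQ' : Q K (((x ^ 2 : ℝ)) : ℂ) = 0 := by push_cast; exact hQ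
    rcases near_half (by omega) hsmall h1 h2 hne2 q1 q2 hQ' hnear' with h | h
    · have h' : x ^ 2 = x₁ ^ 2 := by exact_mod_cast h
      rcases sq_eq_sq_iff_eq_or_eq_neg.1 h' with h'' | h''
      · left; rw [h'']
      · right; left; rw [h'']; push_cast; rfl
    · have h' : x ^ 2 = x₂ ^ 2 := by exact_mod_cast h
      rcases sq_eq_sq_iff_eq_or_eq_neg.1 h' with h'' | h''
      · right; right; left; rw [h'']
      · right; right; right; rw [h'']; push_cast; rfl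
  · have e1 : Q K ((x₁ : ℂ) ^ 2) = 0 := by
      have : ((x₁ : ℂ) ^ 2) = ((x₁ ^ 2 : ℝ) : ℂ) := by push_cast; rfl
      rw [this, Q_ofReal, q1]; simp
    have e2 : Q K ((x₂ : ℂ) ^ 2) = 0 := by
      have : ((x₂ : ℂ) ^ 2) = ((x₂ ^ 2 : ℝ) : ℂ) := by push_cast; rfl
      rw [this, Q_ofReal, q2]; simp
    rintro (rfl | rfl | rfl | rfl)
    · exact ⟨e1, by simp⟩
    · exact ⟨by rw [neg_sq]; exact e1, by simp⟩
    · exact ⟨e2, by simp⟩
    · exact ⟨by rw [neg_sq]; exact e2, by simp⟩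

theorem upper_close {L : ℕ} (hα : minpoly ℚ α = (P (2 ^ m)).map (Int.castRingHom ℚ))
    (hm : 3 ≤ m) (hK : 2 ^ m = 2 * K) (hKL : K = L ^ 3) (hL : 16 ≤ L)
    (hL2 : 200 * (L : ℝ) ^ 2 < 2 ^ L)
    (hsmall : 2 * ((K : ℝ) + 1) ^ 2 * (11 / 20) ^ (K - 2) < 5) {x₁ x₂ : ℝ}
    (hx₁ : 0 < x₁) (hx₂ : 0 < x₂)
    (h1 : |2 * x₁ ^ 2 - 1| ≤ 1 / 10) (h2 : |2 * x₂ ^ 2 - 1| ≤ 1 / 10) (hne : x₁ ≠ x₂)
    (q1 : q K (x₁ ^ 2) = 0) (q2 : q K (x₂ ^ 2) = 0) {z : ℂ} (hz : z ∈ upperConjugates α) :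
    |‖z‖ ^ 2 - 1| ≤ 1 / (L : ℝ) ^ 2 := by
  have hne2 : x₁ ^ 2 ≠ x₂ ^ 2 := by
    intro h
    rw [sq_eq_sq₀ hx₁.le hx₂.le] at h
    exact hne h
  rw [mem_upper, mem_conjugates hα hm hK] at hz
  obtain ⟨hQ, him⟩ := hz
  have hK2 : 2 ≤ K := by
    rw [hKL]
    calc 2 ≤ 16 ^ 3 := by norm_num
      _ ≤ L ^ 3 := Nat.pow_le_pow_left hL 3
  rcases le_or_gt ‖2 * z ^ 2 - 1‖ (1 / 10) with hnear | hfar
  · exfalso
    have key : ∀ x : ℝ, z ^ 2 = ((x ^ 2 : ℝ) : ℂ) → False := by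
      intro x hx
      have h3 : z ^ 2 = (x : ℂ) ^ 2 := by rw [hx]; push_cast; rfl
      rcases sq_eq_sq_iff_eq_or_eq_neg.1 h3 with h | h
      · rw [h] at him; simp at him
      · rw [h] at him; simp at him
    rcases near_half hK2 hsmall h1 h2 hne2 q1 q2 hQ hnear with h | h
    · exact key x₁ h
    · exact key x₂ h
  · have h3 : Q (L ^ 3) (z ^ 2) = 0 := by rw [← hKL]; exact hQ
    have h4 := annulus hL hL2 h3 hfar
    rw [norm_pow] at h4
    exact h4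

end

theorem inv_aux {η : ℝ} (h0 : 0 < η) (h1 : η ≤ 1 / 20) : (1 - 2 * η)⁻¹ ≤ 1 + 4 * η := by
  have e4 : (0 : ℝ) < 1 - 2 * η := by linarith
  rw [inv_le_iff_one_le_mul₀ e4]
  nlinarith

/-! ### The choice of the parameter -/

theorem exists_param {ε η : ℝ} (hη : 0 < η) : ∃ b : ℕ,
    16 ≤ 2 ^ b ∧ 200 * (((2 : ℕ) ^ b : ℕ) : ℝ) ^ 2 < 2 ^ (2 ^ b) ∧
      8 / ε ≤ (((2 : ℕ) ^ b : ℕ) : ℝ) ∧ 100 ≤ (2 ^ b) ^ 3 ∧
      2 * ((((2 ^ b) ^ 3 : ℕ) : ℝ) + 1) ^ 2 * (11 / 20) ^ ((2 ^ b) ^ 3 - 2) < 5 ∧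
      (11 / 20 : ℝ) ^ ((2 ^ b) ^ 3) < 4 * η ^ 2 := by
  have t1 : Filter.Tendsto (fun n : ℕ => (n : ℝ) ^ 2 / 2 ^ n) Filter.atTop (nhds 0) :=
    tendsto_pow_const_div_const_pow_of_one_lt 2 (by norm_num)
  have t2 : Filter.Tendsto (fun n : ℕ => (n : ℝ) ^ 2 * (11 / 20 : ℝ) ^ n) Filter.atTop (nhds 0) :=
    tendsto_pow_const_mul_const_pow_of_abs_lt_one 2 (by rw [abs_lt]; constructor <;> norm_num)
  have t3 : Filter.Tendsto (fun n : ℕ => (11 / 20 : ℝ) ^ n) Filter.atTop (nhds 0) :=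
    tendsto_pow_atTop_nhds_zero_of_lt_one (by norm_num) (by norm_num)
  have e1 := t1.eventually (gt_mem_nhds (show (0 : ℝ) < 1 / 200 by norm_num))
  have e2 := t2.eventually (gt_mem_nhds (show (0 : ℝ) < 1 / 10 by norm_num))
  have e3 := t3.eventually (gt_mem_nhds (show (0 : ℝ) < 4 * η ^ 2 by positivity))
  have e4 : ∀ᶠ n : ℕ in Filter.atTop, 8 / ε ≤ (n : ℝ) :=
    tendsto_natCast_atTop_atTop.eventually_ge_atTop (8 / ε)
  obtain ⟨n₀, hn₀⟩ := Filter.eventually_atTop.1 (((e1.and e2).and (e3.and e4)).and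
    (Filter.eventually_ge_atTop 100))
  have hL : n₀ ≤ 2 ^ n₀ := Nat.lt_two_pow_self.le
  have hn100 : 100 ≤ n₀ := (hn₀ n₀ le_rfl).2
  have hL100 : 100 ≤ 2 ^ n₀ := hn100.trans hL
  have hK : 2 ^ n₀ ≤ (2 ^ n₀) ^ 3 := Nat.le_self_pow (by norm_num) _
  obtain ⟨⟨⟨a1, a2⟩, a3, a4⟩, a5⟩ := hn₀ (2 ^ n₀) hL
  obtain ⟨⟨⟨b1, b2⟩, b3, b4⟩, b5⟩ := hn₀ ((2 ^ n₀) ^ 3) (hL.trans hK)
  refine ⟨n₀, by omega, ?_, a4, b5, ?_, b3⟩
  · rw [div_lt_iff₀ (by positivity)] at a1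
    linarith
  · set K := (2 ^ n₀) ^ 3 with hKdef
    have hK1 : (100 : ℝ) ≤ K := by exact_mod_cast b5
    have h1 : ((K : ℝ) + 1) ^ 2 ≤ 2 * (K : ℝ) ^ 2 := by nlinarith
    have h2 : (11 / 20 : ℝ) ^ K = (11 / 20) ^ (K - 2) * (11 / 20) ^ 2 := by
      rw [← pow_add]; congr 1; omega
    rw [h2] at b2
    have h3 : (0 : ℝ) ≤ (11 / 20) ^ (K - 2) := by positivity
    have h4 : ((K : ℝ) + 1) ^ 2 * (11 / 20) ^ (K - 2) ≤ 2 * (K : ℝ) ^ 2 * (11 / 20) ^ (K - 2) :=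
      mul_le_mul_of_nonneg_right h1 h3
    nlinarith

/-- **The bound is sharp for `s = 4`.** -/
theorem result : ∀ ε : ℝ, 0 < ε → ∃ α : ℂ, α ≠ 0 ∧ IsIntegral ℤ α ∧
    2 ≤ (minpoly ℚ α).natDegree ∧ (realConjugates α).card = 4 ∧
    squareSize α < (minpoly ℚ α).natDegree *
      (2 : ℝ) ^ ((4 : ℝ) / (minpoly ℚ α).natDegree - 1) + ε := by
  intro ε hε
  set η : ℝ := min (ε / 24) (1 / 20) with hη
  have hηpos : 0 < η := lt_min (by positivity) (by norm_num)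
  have hη1 : η ≤ ε / 24 := min_le_left _ _
  have hη2 : η ≤ 1 / 20 := min_le_right _ _
  obtain ⟨b, c1, c2, c3, c4, c5, c6⟩ := exists_param (ε := ε) hηpos
  set L : ℕ := 2 ^ b with hLdef
  set K : ℕ := L ^ 3 with hKdef
  have hM : 2 ^ (3 * b + 1) = 2 * K := by
    rw [hKdef, hLdef, ← pow_mul, pow_succ, mul_comm b 3, mul_comm]
  set m : ℕ := 3 * b + 1 with hm
  have hm3 : 3 ≤ m := by
    rcases Nat.eq_zero_or_pos b with h | h
    · rw [hLdef, h] at c1; norm_num at c1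
    · omega
  obtain ⟨α, hα0, hαint, hαmin⟩ := exists_alpha m hm3
  have hM5 : 5 ≤ 2 ^ m := by omega
  have hdeg : (minpoly ℚ α).natDegree = 2 * K + 2 := by
    rw [hαmin, (P_monic hM5).natDegree_map, P_natDegree hM5, hM]
  obtain ⟨y₁, y₂, l1, u1, l2, u2, q1, q2⟩ := exists_roots (K := K) hηpos hη2 c6
  have hy₁ : 0 < y₁ := by linarith
  have hy₂ : 0 < y₂ := by linarith
  set x₁ := √y₁ with hx₁
  set x₂ := √y₂ with hx₂
  have hx₁pos : 0 < x₁ := Real.sqrt_pos.2 hy₁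
  have hx₂pos : 0 < x₂ := Real.sqrt_pos.2 hy₂
  have s1 : x₁ ^ 2 = y₁ := Real.sq_sqrt hy₁.le
  have s2 : x₂ ^ 2 = y₂ := Real.sq_sqrt hy₂.le
  have hne : x₁ < x₂ := by
    apply Real.sqrt_lt_sqrt hy₁.le; linarith
  have n1 : |2 * x₁ ^ 2 - 1| ≤ 1 / 10 := by
    rw [s1, abs_le]; constructor <;> linarith
  have n2 : |2 * x₂ ^ 2 - 1| ≤ 1 / 10 := by
    rw [s2, abs_le]; constructor <;> linarith
  have q1' : q K (x₁ ^ 2) = 0 := by rw [s1]; exact q1
  have q2' : q K (x₂ ^ 2) = 0 := by rw [s2]; exact q2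
  have hreal := real_eq hαmin hm3 hM c4 c5 hx₁pos hx₂pos n1 n2 hne.ne q1' q2'
  -- the four real conjugates are distinct
  have d12 : (x₁ : ℂ) ≠ -(x₁ : ℂ) := by
    intro h
    have : x₁ = -x₁ := by exact_mod_cast h
    linarith
  have d13 : (x₁ : ℂ) ≠ (x₂ : ℂ) := by
    intro h
    have : x₁ = x₂ := by exact_mod_cast h
    linarith
  have d14 : (x₁ : ℂ) ≠ -(x₂ : ℂ) := by
    intro h
    have : x₁ = -x₂ := by exact_mod_cast h
    linarith
  have d23 : -(x₁ : ℂ) ≠ (x₂ : ℂ) := by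
    intro h
    have : -x₁ = x₂ := by exact_mod_cast h
    linarith
  have d24 : -(x₁ : ℂ) ≠ -(x₂ : ℂ) := by
    intro h
    exact d13 (neg_injective h)
  have d34 : (x₂ : ℂ) ≠ -(x₂ : ℂ) := by
    intro h
    have : x₂ = -x₂ := by exact_mod_cast h
    linarith
  have hcard4 : (realConjugates α).card = 4 := by
    rw [hreal]
    rw [Finset.card_insert_of_notMem, Finset.card_insert_of_notMem, Finset.card_insert_of_notMem,
      Finset.card_singleton]
    · simp [d34]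
    · simp only [Finset.mem_insert, Finset.mem_singleton, not_or]
      exact ⟨d23, d24⟩
    · simp only [Finset.mem_insert, Finset.mem_singleton, not_or]
      exact ⟨d12, d13, d14⟩
  refine ⟨α, hα0, hαint, by omega, hcard4, ?_⟩
  have nx1 : ‖(x₁ : ℂ)‖ = x₁ := by rw [Complex.norm_real, Real.norm_of_nonneg hx₁pos.le]
  have nx2 : ‖(x₂ : ℂ)‖ = x₂ := by rw [Complex.norm_real, Real.norm_of_nonneg hx₂pos.le]
  have hsumR : ∑ z ∈ realConjugates α, ‖z‖ ^ 2 = 2 * (y₁ + y₂) := by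
    rw [hreal]
    rw [Finset.sum_insert, Finset.sum_insert, Finset.sum_insert, Finset.sum_singleton]
    · rw [norm_neg, norm_neg, nx1, nx2, s1, s2]; ring
    · simp [d34]
    · simp only [Finset.mem_insert, Finset.mem_singleton, not_or]
      exact ⟨d23, d24⟩
    · simp only [Finset.mem_insert, Finset.mem_singleton, not_or]
      exact ⟨d12, d13, d14⟩
  have hprodR : ∏ z ∈ realConjugates α, ‖z‖ = y₁ * y₂ := by
    rw [hreal]
    rw [Finset.prod_insert, Finset.prod_insert, Finset.prod_insert, Finset.prod_singleton]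
    · rw [norm_neg, norm_neg, nx1, nx2, ← s1, ← s2]; ring
    · simp [d34]
    · simp only [Finset.mem_insert, Finset.mem_singleton, not_or]
      exact ⟨d23, d24⟩
    · simp only [Finset.mem_insert, Finset.mem_singleton, not_or]
      exact ⟨d12, d13, d14⟩
  -- the number of upper conjugates
  have hcardU : 4 + 2 * (upperConjugates α).card = 2 * K + 2 := by
    have h1 := card_conjugates hαmin hm3 hαint
    rw [conjugates_eq, Finset.card_union_of_disjoint disj2, Finset.card_union_of_disjoint disj1,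
      card_lower hαmin hm3 hM, hcard4, hM] at h1
    omega
  have hprodU : y₁ * y₂ * ∏ z ∈ upperConjugates α, ‖z‖ ^ 2 = 1 := by
    have h1 := prod_conjugates hαmin hm3 hαint
    rw [conjugates_eq, Finset.prod_union disj2, Finset.prod_union disj1,
      prod_lower hαmin hm3 hM (fun t => t), hprodR] at h1
    rw [Finset.prod_pow, ← h1]; ring
  -- upper conjugates are close to the unit circle
  have hLr : (16 : ℝ) ≤ L := by exact_mod_cast c1
  have hδ : 1 / (L : ℝ) ^ 2 ≤ 1 / 256 := by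
    apply one_div_le_one_div_of_le (by norm_num)
    calc (256 : ℝ) = 16 ^ 2 := by norm_num
      _ ≤ (L : ℝ) ^ 2 := pow_le_pow_left₀ (by norm_num) hLr 2
  have hclose : ∀ z ∈ upperConjugates α, |‖z‖ ^ 2 - 1| ≤ 1 / (L : ℝ) ^ 2 := fun z hz =>
    upper_close hαmin hm3 hM rfl c1 c2 c5 hx₁pos hx₂pos n1 n2 hne.ne q1' q2' hz
  have hUpos : ∀ z ∈ upperConjugates α, 1 / 2 ≤ ‖z‖ ^ 2 := by
    intro z hz
    have := (abs_le.1 (hclose z hz)).1
    linarith
  have hterm : ∀ z ∈ upperConjugates α,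
      ‖z‖ ^ 2 ≤ 1 + Real.log (‖z‖ ^ 2) + 2 * (1 / (L : ℝ) ^ 2) ^ 2 := by
    intro z hz
    have h1 := le_log (hUpos z hz)
    have h2 : (‖z‖ ^ 2 - 1) ^ 2 ≤ (1 / (L : ℝ) ^ 2) ^ 2 := by
      rw [← sq_abs (‖z‖ ^ 2 - 1)]
      exact pow_le_pow_left₀ (abs_nonneg _) (hclose z hz) 2
    linarith
  have hsumU : ∑ z ∈ upperConjugates α, ‖z‖ ^ 2 ≤
      (upperConjugates α).card * (1 + 2 * (1 / (L : ℝ) ^ 2) ^ 2) - Real.log (y₁ * y₂) := by
    have hlog : ∑ z ∈ upperConjugates α, Real.log (‖z‖ ^ 2) = - Real.log (y₁ * y₂) := by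
      rw [← Real.log_prod (fun z hz => by have := hUpos z hz; positivity)]
      have h1 : ∏ z ∈ upperConjugates α, ‖z‖ ^ 2 = (y₁ * y₂)⁻¹ :=
        eq_inv_of_mul_eq_one_right hprodU
      rw [h1, Real.log_inv]
    calc ∑ z ∈ upperConjugates α, ‖z‖ ^ 2
        ≤ ∑ z ∈ upperConjugates α, (Real.log (‖z‖ ^ 2) + (1 + 2 * (1 / (L : ℝ) ^ 2) ^ 2)) := by
          apply Finset.sum_le_sum
          intro z hz
          have := hterm z hz
          linarith
      _ = _ := by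
          rw [Finset.sum_add_distrib, hlog, Finset.sum_const, nsmul_eq_mul]; ring
  -- the logarithm
  have hlog1 : -Real.log (y₁ * y₂) ≤ 2 * Real.log 2 + 4 * η := by
    rw [Real.log_mul hy₁.ne' hy₂.ne']
    have e1 : Real.log (1 / 2 * (1 - 2 * η)) ≤ Real.log y₁ := by
      apply Real.log_le_log _ (by linarith)
      apply mul_pos (by norm_num); linarith
    have e2 : Real.log (1 / 2) ≤ Real.log y₂ := Real.log_le_log (by norm_num) l2.le
    have e3 : Real.log (1 / 2) = -Real.log 2 := by rw [one_div, Real.log_inv]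
    have e4 : (0 : ℝ) < 1 - 2 * η := by linarith
    rw [Real.log_mul (by norm_num) e4.ne', e3] at e1
    rw [e3] at e2
    have e5 := Real.one_sub_inv_le_log_of_pos e4
    have e6 : (1 - 2 * η)⁻¹ ≤ 1 + 4 * η := inv_aux hηpos hη2
    linarith
  have hcast : ((upperConjugates α).card : ℝ) = K - 1 := by
    have h1 : ((4 + 2 * (upperConjugates α).card : ℕ) : ℝ) = ((2 * K + 2 : ℕ) : ℝ) := by
      rw [hcardU]
    push_cast at h1
    linarith
  have hKr : (K : ℝ) = (L : ℝ) ^ 3 := by rw [hKdef]; push_cast; rfl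
  have hLpos : (0 : ℝ) < L := by linarith
  have hsmall : ((K : ℝ) - 1) * (2 * (1 / (L : ℝ) ^ 2) ^ 2) ≤ ε / 4 := by
    have h1 : ((K : ℝ) - 1) * (2 * (1 / (L : ℝ) ^ 2) ^ 2) ≤ K * (2 * (1 / (L : ℝ) ^ 2) ^ 2) := by
      apply mul_le_mul_of_nonneg_right (by linarith) (by positivity)
    have h2 : (K : ℝ) * (2 * (1 / (L : ℝ) ^ 2) ^ 2) = 2 / L := by
      rw [hKr]; field_simp
    have h3 : 2 / (L : ℝ) ≤ ε / 4 := by
      rw [div_le_iff₀ hε] at c3
      rw [div_le_iff₀ hLpos]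
      linarith
    linarith
  have hn : ((minpoly ℚ α).natDegree : ℝ) = 2 * K + 2 := by rw [hdeg]; push_cast; rfl
  have hKpos : (0 : ℝ) ≤ K := by positivity
  have hrhs : (K : ℝ) + 1 + 2 * Real.log 2 ≤
      (2 * (K : ℝ) + 2) * (2 : ℝ) ^ ((4 : ℝ) / (2 * (K : ℝ) + 2) - 1) := by
    have h1 : (2 : ℝ) ^ ((4 : ℝ) / (2 * (K : ℝ) + 2) - 1) =
        (2 : ℝ) ^ ((4 : ℝ) / (2 * (K : ℝ) + 2)) / 2 := by
      rw [Real.rpow_sub (by norm_num), Real.rpow_one]
    have h2 : 1 + Real.log 2 * ((4 : ℝ) / (2 * (K : ℝ) + 2)) ≤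
        (2 : ℝ) ^ ((4 : ℝ) / (2 * (K : ℝ) + 2)) := by
      rw [Real.rpow_def_of_pos (by norm_num)]
      have := Real.add_one_le_exp (Real.log 2 * ((4 : ℝ) / (2 * (K : ℝ) + 2)))
      linarith
    rw [h1]
    have h3 : (0 : ℝ) < 2 * (K : ℝ) + 2 := by linarith
    calc (K : ℝ) + 1 + 2 * Real.log 2
        = (2 * (K : ℝ) + 2) * ((1 + Real.log 2 * ((4 : ℝ) / (2 * (K : ℝ) + 2))) / 2) := by
          field_simp; ring
      _ ≤ _ := by
          apply mul_le_mul_of_nonneg_left _ h3.le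
          linarith
  rw [hn]
  have hsize : squareSize α ≤ (K : ℝ) + 1 + 2 * Real.log 2 + ε / 2 := by
    unfold squareSize
    rw [hsumR]
    rw [hcast] at hsumU
    have h1 : ((K : ℝ) - 1) * (1 + 2 * (1 / (L : ℝ) ^ 2) ^ 2) =
        (K - 1) + ((K : ℝ) - 1) * (2 * (1 / (L : ℝ) ^ 2) ^ 2) := by ring
    linarith
  linarith

end Pool.Agent.Results.MP_bf7c2b_nt.SharpForFour
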